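import Pool.Agent.Helper76.RL.Fof

/-! Charts of a family with large images: the part of the region which is covered by charts with small image has small
measure. -/

set_option autoImplicit false

namespace Pool.Agent.Helper93.SLC

open MvPolynomial MeasureTheory Set Metric Pool.Agent.Helper76.RL

/-- CHARTS WITH LARGE IMAGES -/
theorem chs (m D r : ℕ) (hD : 1 ≤ D) : ∃ (L : ℕ) (C : ℝ), 1 ≤ L ∧ 1 ≤ C ∧ ∀ {R : Type} [Fintype R],
    Fintype.card R = r → ∀ ψ : R → MvPolynomial (Fin m) ℝ, (∀ ρ, (ψ ρ).totalDegree ≤ D) →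
    ∀ κ : Fin m → R, (∀ a, ψ (κ a) = X a) → ∀ K : ℝ, 1 ≤ K → ∀ N : ℕ, C ^ 2 ≤ N → ∀ θ : ℝ, 0 < θ →
    ∃ (B : Set (Fin m → ℝ)) (E : Cod m R N L → Set (Fin m → ℝ)) (G : Cod m R N L → Fin m → (Fin m → ℂ) → ℂ),
      MeasurableSet B ∧
      ∫⁻ x in B, ENNReal.ofReal √(gd ψ x) ≤ ENNReal.ofReal (C * K ^ m * (1 / √N + θ)) ∧
      (∀ x ∈ Reg ψ K, x ∉ B → ∃ c, x ∈ E c) ∧
      (∀ c, (E c).Nonempty → ENNReal.ofReal θ ≤ volume (Tc ψ K c '' E c)) ∧
      (∀ c, ∀ x ∈ E c, x ∈ Reg ψ K ∧ (∀ a, 0 ≤ Tc ψ K c x a ∧ Tc ψ K c x a ≤ 1) ∧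
        N ^ m * √(gd ψ x) ≤ C * K ^ m * |(Td ψ K c x).det| ∧ (Td ψ K c x).det ≠ 0 ∧
        ∀ j, G c j (rc (Tc ψ K c x)) = ((x j / K : ℝ) : ℂ)) ∧
      (∀ c j, DifferentiableOn ℂ (G c j) (ball 0 (√N / C)) ∧ ∀ y ∈ ball (0 : Fin m → ℂ) (√N / C), ‖G c j y‖ ≤ 3) := by
  classical
  obtain ⟨L, C0, hL, hC0, h⟩ := cht m D r hD
  set q : ℝ := ((r ^ m * (L * L) ^ m : ℕ) : ℝ) with hq
  have hq0 : 0 ≤ q := Nat.cast_nonneg _
  set C : ℝ := C0 + C0 * q with hC
  have hCC : C0 ≤ C := by rw [hC]; nlinarith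
  have hCq : C0 * q ≤ C := by rw [hC]; linarith
  refine ⟨L, C, hL, by linarith, ?_⟩
  intro R _ hR ψ hψ κ hκ K hK N hN θ hθ
  have hN2 : C0 ^ 2 ≤ N := le_trans (pow_le_pow_left₀ (by linarith) hCC 2) hN
  have hN0 : (0 : ℝ) < N := lt_of_lt_of_le (by positivity) hN2
  obtain ⟨E0, G, h1, h2, h3, h4, h5, h6⟩ := h hR ψ hψ κ hκ K hK N hN2
  have hKm : 0 < K ^ m := by positivity
  set gc : Cod m R N L → Prop := fun c => ENNReal.ofReal θ ≤ volume (Tc ψ K c '' E0 c) with hgc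
  set Bd : Cod m R N L → Set (Fin m → ℝ) := fun c => if gc c then ∅ else E0 c with hBd
  have hBdm : ∀ c, MeasurableSet (Bd c) := by
    intro c
    show MeasurableSet (if gc c then ∅ else E0 c)
    split_ifs
    · exact MeasurableSet.empty
    · exact h1 c
  have hinj : ∀ c, InjOn (Tc ψ K c) (E0 c) := by
    intro c x hx y hy hxy
    funext j
    have e1 := (h3 c x hx).2.2.2.2 j
    have e2 := (h3 c y hy).2.2.2.2 j
    rw [hxy, e2] at e1
    have e3 : y j / K = x j / K := by exact_mod_cast e1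
    have hK0 : K ≠ 0 := by linarith
    field_simp at e3
    exact e3.symm
  have hpiece : ∀ c, ∫⁻ x in Bd c, ENNReal.ofReal √(gd ψ x) ≤ ENNReal.ofReal (C0 * K ^ m / N ^ m * θ) := by
    intro c
    show ∫⁻ x in (if gc c then ∅ else E0 c), _ ≤ _
    by_cases hc : gc c
    · rw [if_pos hc, Measure.restrict_empty, lintegral_zero_measure]
      exact bot_le
    · rw [if_neg hc]
      have hv : volume (Tc ψ K c '' E0 c) ≤ ENNReal.ofReal θ := le_of_lt (not_le.mp hc)
      have e1 : ∫⁻ x in E0 c, ENNReal.ofReal |(Td ψ K c x).det| = volume (Tc ψ K c '' E0 c) :=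
        lintegral_abs_det_fderiv_eq_addHaar_image volume (h1 c)
          (fun x _ => (Tc_hasFDerivAt ψ K c x).hasFDerivWithinAt) (hinj c)
      have e2 : ∫⁻ x in E0 c, ENNReal.ofReal √(gd ψ x) ≤
          ∫⁻ x in E0 c, ENNReal.ofReal (C0 * K ^ m / N ^ m) * ENNReal.ofReal |(Td ψ K c x).det| := by
        apply setLIntegral_mono' (h1 c)
        intro x hx
        rw [← ENNReal.ofReal_mul (by positivity)]
        apply ENNReal.ofReal_le_ofReal
        have e3 := (h3 c x hx).2.2.1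
        rw [div_mul_eq_mul_div, le_div_iff₀ (by positivity), mul_comm]
        exact e3
      refine e2.trans ?_
      rw [lintegral_const_mul' _ _ ENNReal.ofReal_ne_top, e1, ENNReal.ofReal_mul (by positivity)]
      exact mul_le_mul_right hv _
  have hcard : (Fintype.card (Cod m R N L) : ℝ) * (C0 * K ^ m / N ^ m * θ) = C0 * q * K ^ m * θ := by
    have e1 : Fintype.card (Cod m R N L) = r ^ m * (N ^ m * (L * L) ^ m) := by
      rw [Fintype.card_prod, Fintype.card_prod, Fintype.card_fun, Fintype.card_fun, Fintype.card_fun,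
        Fintype.card_fin, Fintype.card_fin, Fintype.card_fin, hR]
    rw [e1, hq]
    push_cast
    field_simp
  have hBsum : ∫⁻ x in ⋃ c, Bd c, ENNReal.ofReal √(gd ψ x) ≤ ENNReal.ofReal (C0 * q * K ^ m * θ) := by
    refine (lintegral_iUnion_le _ _).trans ?_
    rw [tsum_fintype]
    refine (Finset.sum_le_sum fun c _ => hpiece c).trans ?_
    rw [Finset.sum_const, Finset.card_univ, nsmul_eq_mul, ← hcard, ENNReal.ofReal_mul (Nat.cast_nonneg _),
      ENNReal.ofReal_natCast]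
  have hrad : ball (0 : Fin m → ℂ) (√N / C) ⊆ ball 0 (√N / C0) := by
    apply ball_subset_ball
    exact div_le_div_of_nonneg_left (Real.sqrt_nonneg _) (by linarith) hCC
  refine ⟨(Reg ψ K \ ⋃ c, E0 c) ∪ ⋃ c, Bd c, fun c => if gc c then E0 c else ∅, G, ?_, ?_, ?_, ?_, ?_, ?_⟩
  · exact ((reg_meas ψ K).diff (MeasurableSet.iUnion h1)).union (MeasurableSet.iUnion hBdm)
  · refine (lintegral_union_le _ _ _).trans ?_
    refine (add_le_add h6 hBsum).trans ?_
    rw [← ENNReal.ofReal_add (by positivity) (by positivity)]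
    apply ENNReal.ofReal_le_ofReal
    have e1 : C0 * K ^ m / √N ≤ C * K ^ m * (1 / √N) := by
      rw [mul_one_div]
      exact div_le_div_of_nonneg_right (mul_le_mul_of_nonneg_right hCC hKm.le) (Real.sqrt_nonneg _)
    have e2 : C0 * q * K ^ m * θ ≤ C * K ^ m * θ :=
      mul_le_mul_of_nonneg_right (mul_le_mul_of_nonneg_right hCq hKm.le) hθ.le
    rw [mul_add]
    exact add_le_add e1 e2
  · intro x hx hxB
    have e1 : x ∈ ⋃ c, E0 c := by
      by_contra hn
      exact hxB (Or.inl ⟨hx, hn⟩)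
    obtain ⟨c, hc⟩ := mem_iUnion.mp e1
    refine ⟨c, ?_⟩
    by_cases hg : gc c
    · show x ∈ (if gc c then E0 c else ∅)
      rw [if_pos hg]
      exact hc
    · exfalso
      apply hxB
      right
      refine mem_iUnion.mpr ⟨c, ?_⟩
      show x ∈ (if gc c then ∅ else E0 c)
      rw [if_neg hg]
      exact hc
  · intro c hc
    by_cases hg : gc c
    · show ENNReal.ofReal θ ≤ volume (Tc ψ K c '' (if gc c then E0 c else ∅))
      rw [if_pos hg]
      exact hg
    · obtain ⟨x, hx⟩ := hc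
      have hx' : x ∈ (if gc c then E0 c else ∅) := hx
      rw [if_neg hg] at hx'
      exact absurd hx' (notMem_empty x)
  · intro c x hx
    have hx' : x ∈ (if gc c then E0 c else ∅) := hx
    have hx0 : x ∈ E0 c := by
      by_cases hg : gc c
      · rwa [if_pos hg] at hx'
      · rw [if_neg hg] at hx'
        exact absurd hx' (notMem_empty x)
    obtain ⟨a1, a2, a3, a4, a5⟩ := h3 c x hx0
    refine ⟨a1, a2, a3.trans ?_, a4, a5⟩
    exact mul_le_mul_of_nonneg_right (mul_le_mul_of_nonneg_right hCC hKm.le) (abs_nonneg _)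
  · intro c j
    obtain ⟨a1, a2, a3⟩ := h4 c j
    exact ⟨a1.mono hrad, fun y hy => a2 y (hrad hy)⟩

end Pool.Agent.Helper93.SLC
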